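import Pool.Agent.H313R3.TK.J

/-!
# One-sided weak Mertens bounds on the windows `[x, x log x]`

Let `M(u) = ∑_{n ≤ u} μ(n)` and `s = 1` or `s = -1`.

* If for every `ε > 0` there are arbitrarily large real `x` (as sparse as one likes) with
  `∫_x^{x log x} (max(s M(u), 0)/u)² du ≤ ε (log x)²`, then the Riemann Hypothesis holds and every nontrivial
  zero of `ζ` is simple.
* Unconditionally there is `c > 0` such that `∫_x^{x log x} (max(s M(u), 0)/u)² du ≥ c` for all large `x`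
  and both signs `s`.
-/

set_option autoImplicit false

open Filter Topology MeasureTheory

namespace Pool.Agent.Results.MP_323ce2_nt.OneSidedLogWindows

/-- `∫_x^{x log x} (max(s M(u), 0)/u)² du`, the mean square of the positive (`s = 1`) or negative (`s = -1`)
part of the Mertens function on the window `[x, x log x]`. -/
noncomputable def oneSided (s x : ℝ) : ℝ :=
  ∫ u in x..(x * Real.log x),
    (max (s * ∑ n ∈ Finset.Icc 1 ⌊u⌋₊, ((ArithmeticFunction.moebius n : ℤ) : ℝ)) 0 / u) ^ 2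

theorem result :
    (∀ s : ℝ, s = 1 ∨ s = -1 →
      (∀ ε : ℝ, 0 < ε → ∃ᶠ x : ℝ in atTop, oneSided s x ≤ ε * Real.log x ^ 2) →
      ∀ ρ : ℂ, riemannZeta ρ = 0 → 0 < ρ.re → ρ.re < 1 → ρ.re = 1 / 2 ∧ deriv riemannZeta ρ ≠ 0) ∧
    (∃ c : ℝ, 0 < c ∧ ∀ᶠ x : ℝ in atTop, c ≤ oneSided 1 x ∧ c ≤ oneSided (-1) x) := by
  refine ⟨fun s hs h ρ hz h0 h1 => H313.TK.weak_one s hs h ρ hz h0 h1, ?_⟩
  obtain ⟨ρ, hz, h0, h1⟩ := H313.TK.exists_zero
  obtain ⟨c, hc, h⟩ := H313.TK.sq_low1 ρ hz h0 h1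
  refine ⟨c, hc, ?_⟩
  filter_upwards [h, eventually_ge_atTop 1] with x hx hx1
  have h3 : c ≤ c * x ^ (2 * ρ.re - 1) := by
    have := Real.one_le_rpow hx1 (show 0 ≤ 2 * ρ.re - 1 by linarith)
    nlinarith
  exact ⟨h3.trans (hx 1 (Or.inl rfl)), h3.trans (hx (-1) (Or.inr rfl))⟩

end Pool.Agent.Results.MP_323ce2_nt.OneSidedLogWindows
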